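import Mathlib

namespace Pool.Agent.Results.MP_924435_co.UpperBound

/-- The cell `C_{k;i,j}` of the `k × k` grid on the half-open unit square. -/
def cell (k i j : ℕ) : Set (ℝ × ℝ) :=
  Set.Ico (((i : ℝ) - 1) / k) ((i : ℝ) / k) ×ˢ Set.Ico (((j : ℝ) - 1) / k) ((j : ℝ) / k)

/-- The points `x 1, x 2, ..., x (K ^ 2)` lie in the half-open unit square and, for every
`k = 1, ..., K`, each cell of the `k × k` grid contains exactly one of `x 1, ..., x (k ^ 2)`. -/
def IsGood (K : ℕ) (x : ℕ → ℝ × ℝ) : Prop :=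
  (∀ n, 1 ≤ n → n ≤ K ^ 2 → x n ∈ Set.Ico (0 : ℝ) 1 ×ˢ Set.Ico (0 : ℝ) 1) ∧
  ∀ k, 1 ≤ k → k ≤ K → ∀ i j, 1 ≤ i → i ≤ k → 1 ≤ j → j ≤ k →
    ∃! n, 1 ≤ n ∧ n ≤ k ^ 2 ∧ x n ∈ cell k i j

/-- The supremum (in `ℕ∞`) of the `K ≥ 1` for which a `K`-good sequence exists. -/
noncomputable def Kstar : ℕ∞ := ⨆ K ∈ {K : ℕ | 1 ≤ K ∧ ∃ x, IsGood K x}, (K : ℕ∞)

/-- A certificate tuple. -/
structure Tup where
  q : ℕ
  a : ℕ
  b : ℕ
  c : ℕ
  d : ℕ

/-- The right end of the `p`-cell of `m/e` is at least the right end of its `q`-cell. -/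
def cR (m e q p : ℕ) : Bool := decide ((q * m / e + 1) * p ≤ (p * m / e + 1) * q)

/-- The left end of the `p`-cell of `m/e` is at most the left end of its `q`-cell. -/
def cL (m e q p : ℕ) : Bool := decide ((p * m / e) * q ≤ (q * m / e) * p)

def fx (m e : ℕ) (t : Tup) : Bool := cR m e t.q t.a && cR m e t.q t.b && cL m e t.q t.c && cL m e t.q t.d
def fy (m e : ℕ) (t : Tup) : Bool := cR m e t.q t.a && cL m e t.q t.b && cR m e t.q t.c && cL m e t.q t.d
def fs (k : ℕ) (t : Tup) : Bool :=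
  decide (t.q < k) && decide (k ≤ t.a) && decide (k ≤ t.b) && decide (k ≤ t.c) && decide (k ≤ t.d)

/-- The bit mask of the tuples in a list that satisfy `f`. -/
def mask (f : Tup → Bool) : List Tup → ℕ
  | [] => 0
  | t :: l => (bif f t then 1 else 0) + 2 * mask f l

theorem mask_and (f g h : Tup → Bool) : ∀ l : List Tup,
    mask f l &&& mask g l &&& mask h l ≠ 0 → ∃ t ∈ l, f t = true ∧ g t = true ∧ h t = true := by
  intro l
  induction l with
  | nil => intro h0; simp [mask] at h0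
  | cons t l ih =>
    intro h0
    by_cases hl : mask f l &&& mask g l &&& mask h l = 0
    · have key : ∀ a b : ℕ, ∀ x y : Bool,
          ((bif x then 1 else 0) + 2 * a) &&& ((bif y then 1 else 0) + 2 * b) =
            (bif (x && y) then 1 else 0) + 2 * (a &&& b) := by
        intro a b x y
        apply Nat.eq_of_testBit_eq
        intro i
        rw [Nat.testBit_land]
        cases i with
        | zero =>
          cases x <;> cases y <;> simp [Nat.testBit_zero, Nat.add_mod]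
        | succ i =>
          have hd : ∀ (z : Bool) (c : ℕ), ((bif z then 1 else 0) + 2 * c) / 2 = c := by
            intro z c; cases z <;> simp <;> omega
          rw [Nat.testBit_succ, Nat.testBit_succ, Nat.testBit_succ, hd, hd, hd, Nat.testBit_land]
      have h1 : mask f (t :: l) &&& mask g (t :: l) &&& mask h (t :: l) =
          (bif (f t && g t && h t) then 1 else 0) + 2 * (mask f l &&& mask g l &&& mask h l) := by
        simp only [mask]
        rw [key, key]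
      rw [h1, hl] at h0
      have h2 : (f t && g t && h t) = true := by
        by_contra hc
        rw [Bool.not_eq_true] at hc
        rw [hc] at h0
        exact h0 rfl
      simp only [Bool.and_eq_true] at h2
      exact ⟨t, List.mem_cons_self, h2.1.1, h2.1.2, h2.2⟩
    · obtain ⟨t', ht', h'⟩ := ih hl
      exact ⟨t', List.mem_cons_of_mem _ ht', h'⟩

def tups : List Tup :=
  [⟨50,70,73,68,75⟩, ⟨54,74,77,72,90⟩, ⟨56,72,79,70,71⟩, ⟨57,69,72,73,76⟩, ⟨58,70,67,72,69⟩, ⟨59,67,68,69,66⟩,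
   ⟨59,67,70,69,72⟩, ⟨59,71,72,73,70⟩, ⟨59,73,70,69,72⟩, ⟨59,73,76,75,78⟩, ⟨60,66,69,70,71⟩, ⟨60,66,75,76,73⟩,
   ⟨60,72,69,68,71⟩, ⟨60,80,73,78,75⟩, ⟨61,67,64,65,68⟩, ⟨61,67,70,69,72⟩, ⟨61,67,80,68,78⟩, ⟨61,73,76,75,78⟩,
   ⟨62,68,71,66,69⟩, ⟨62,68,75,66,73⟩, ⟨62,70,73,72,69⟩, ⟨62,76,73,78,75⟩, ⟨62,78,75,76,73⟩, ⟨63,69,66,67,70⟩,
   ⟨63,69,76,71,84⟩, ⟨63,75,72,73,70⟩, ⟨63,75,78,77,74⟩, ⟨63,79,76,77,84⟩, ⟨63,81,84,79,82⟩, ⟨64,70,73,72,75⟩,
   ⟨64,74,77,82,79⟩, ⟨64,76,79,78,75⟩, ⟨64,86,96,88,92⟩, ⟨65,71,74,73,76⟩, ⟨65,77,86,85,82⟩, ⟨65,79,82,81,78⟩,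
   ⟨65,81,84,79,86⟩, ⟨65,87,84,89,86⟩, ⟨66,72,75,70,73⟩, ⟨66,72,75,73,77⟩, ⟨66,72,75,76,73⟩, ⟨66,78,81,82,79⟩,
   ⟨67,73,70,71,78⟩, ⟨67,73,86,71,84⟩, ⟨67,77,80,75,82⟩, ⟨67,77,86,85,82⟩, ⟨67,79,82,81,84⟩, ⟨68,74,77,72,75⟩,
   ⟨68,76,79,78,75⟩, ⟨68,79,85,78,81⟩, ⟨68,80,83,82,85⟩, ⟨68,82,79,78,81⟩, ⟨69,75,72,73,76⟩, ⟨69,75,78,73,80⟩,
   ⟨69,75,78,79,76⟩, ⟨69,87,84,85,88⟩, ⟨69,87,84,89,92⟩, ⟨70,76,79,74,77⟩, ⟨70,82,79,84,81⟩, ⟨70,82,85,80,87⟩,
   ⟨70,88,85,90,87⟩, ⟨71,77,80,79,82⟩, ⟨71,79,76,75,78⟩, ⟨71,81,84,79,82⟩, ⟨71,81,84,89,86⟩, ⟨71,85,82,81,84⟩,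
   ⟨71,87,90,85,88⟩, ⟨72,78,81,76,79⟩, ⟨72,78,81,80,83⟩, ⟨72,78,81,82,79⟩, ⟨72,84,81,86,83⟩, ⟨72,84,87,86,89⟩,
   ⟨72,84,87,88,85⟩, ⟨73,79,82,87,80⟩, ⟨73,85,92,87,84⟩, ⟨74,76,79,78,85⟩, ⟨74,80,89,88,91⟩, ⟨74,80,90,78,85⟩,
   ⟨74,84,87,82,85⟩, ⟨74,84,87,92,89⟩, ⟨74,85,91,84,87⟩, ⟨74,88,85,84,87⟩, ⟨75,81,78,79,82⟩, ⟨75,81,84,85,82⟩,
   ⟨75,87,90,91,88⟩, ⟨75,91,88,93,90⟩, ⟨76,82,89,80,87⟩, ⟨76,82,95,86,93⟩, ⟨76,88,91,86,93⟩, ⟨77,83,86,85,88⟩,
   ⟨77,85,88,87,90⟩, ⟨77,87,86,85,84⟩, ⟨77,89,92,91,88⟩, ⟨78,84,87,82,85⟩, ⟨78,84,87,94,91⟩, ⟨78,84,91,86,89⟩,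
   ⟨78,84,91,92,95⟩, ⟨78,84,93,88,91⟩, ⟨79,84,88,89,86⟩, ⟨79,85,88,83,90⟩, ⟨79,85,88,87,90⟩, ⟨80,86,89,84,87⟩,
   ⟨81,87,90,85,92⟩, ⟨81,87,94,85,92⟩]

def XL : List ℕ :=
  [1241566858252494587376436032, 21047398560998964356587717440, 178282708511716864077222380352,
   178282750976157187603675743040, 188195942696994895002092962624, 188200741207025335626223321920,
   188200741354617302614407119168, 188200741354621807313545070664, 188200741354621807588456531976,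
   188200741354621807588464920584, 762614587152627506500592222336, 961120209684918601479079854080,
   961120209685062716658632884224, 980772512531120642388612111368, 1941206038800986303941434703874,
   2020439047763762027479402561664, 2020439047763762027479410933888, 2020439047763762167667135103104,
   2218867296684216124923482997760, 2218867296684216124923483258880, 2219950494218590834863311445000,
   2540330360200691411964750462980, 2540330360200700414766029996036, 2540407807011587015162789450752,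
   2540407807016194195659558179840, 2540872204609330252850433049600, 2541026947114240784646770217984,
   2541026947114240925384795440128, 2543425380304098245959225446404, 2550775715478593154465346569216,
   2698709370687242983147790843952, 2699328378448347024392726167600, 2709241560724164591258403520560,
   2709246359236356757502232543280, 2709246359383948724490418307120, 4436854500385902995911471792256,
   4436854500385902995911488307204, 4436859336531615081821048144000, 4436898022157698634775085711488,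
   4436898022157842749954638741632, 4436931871640078791898531189760, 4437241356649927154167040709632,
   4437246193385934980066578531328, 4437246193385934980066578535424, 4438017468178130694229692956688,
   4438328162109164051217829092360, 4438328162109188253667846806536, 4438328162113771513189574530056,
   4438328162113771653927592443920, 4438328162113771653927599752192, 4438332998808302593618988784648,
   5160358040656207685402763706384, 5160358040656207685402763968528, 5160358040803781637992440250384,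
   5199353152041271108057533104144, 5199353152041275607267171745808, 5199353153221866102084676206608,
   5239595724125478838373087232048, 5239595724125478838647998660640, 5258803142267539413575277742088,
   5258803142267611471169315670024, 5397897310483721506717541072896, 5397897310483721646905273614336,
   5417568956143037381693868629000, 5555889406524076740302367637536, 5555889406524076740302376009728,
   5555889407704667235119880470528, 5555889407997518304489274343424, 5575715794685852062978314078216,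
   5575715795866443683695725381640, 5575715796161600596074332948488, 5575715796161600596624088762376,
   5575715796161744711812231727112, 5575715796161744711812231728136, 5575715796161744711812231732232,
   5575715796161744711812231748616, 7695654518748633576950393454608, 7695659316670530214310493536272,
   7774897000139724809377634631728, 7774897000139729309686779134000, 10814683775547650437345849147394,
   10814683775547650441735842078723, 10814683775840501489123056975874, 15214903110658587703670523043841,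
   15214903148426134466768215748613, 15214903148426134466768752615425, 15251422341835953130669359538177,
   15251422341835953130669384671233, 17750203744419683462447034806277, 17750280822885705038395806330885,
   17750280822885709542820067414020]

def YL : List ℕ :=
  [2823048335519978454202110765152, 2842855337638257537511422346216, 2842855376148413541415716570088,
   2842855376148544538600496752736, 2842855376148544538600513529952, 2842855376148544550978065580520,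
   2842855376148557639012613014504, 2842860171875018223790443381736, 2842860171875019349690350224360,
   3467409077256572629446396396520, 12885024370368639521271892966400, 17122635419623249585161446890519,
   17122635561587086115828756397079, 17122640217400030953887791651863, 17122640217404516397288460850709,
   17122640217404516538017292162583, 17122640217404520900612672390665, 17122640217404520905010751636424,
   17122640217404520905010752488392, 17122640217404520905010760025064, 17122640217404520905010760041448,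
   17122703261977743220318528093207, 17122756274283203909411531834344, 17355779143865562912094496670696,
   17395393300662040005000405631976, 17447043835520448239135107070992, 17955626922396131657582745762832,
   17955626922396131657582745779200, 19704582243204024705100256394256]

def SL : List ℕ :=
  [536870911, 8589918207, 274877890559,
   4398037316575, 140737479062415, 4503599618073486,
   144115188048732806, 2305838335691727362, 147573939111471489538,
   9444728306274702336512, 37778918196293312446464, 4835703120676663632855040,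
   77371247667554927868116992, 618932088349093251164143616, 9903482380683567102141923328,
   316907624419005432410570489856, 2535296165364162246439772094464, 5070519919009724400599463624704,
   19637814613921582439311314255872, 20272258884055339830197115420672, 20282317449105988448587964481536]

theorem checkAll : (XL.all fun a => YL.all fun b => SL.all fun c =>
    !((a &&& b &&& c).beq 0)) = true := by
  decide +kernel

theorem checkX : ∀ e ∈ Finset.Icc 1 96, ∀ m ∈ Finset.range e, m.Coprime e →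
    24 ≤ 84 * m / e → 84 * m / e < 28 → XL.contains (mask (fx m e) tups) = true := by
  decide +kernel

theorem checkY : ∀ e ∈ Finset.Icc 1 96, ∀ m ∈ Finset.range e, m.Coprime e →
    40 ≤ 84 * m / e → 84 * m / e < 41 → YL.contains (mask (fy m e) tups) = true := by
  decide +kernel

theorem checkS : ∀ k ∈ Finset.Icc 64 84, SL.contains (mask (fs k) tups) = true := by
  decide +kernel

theorem checkR : ∀ t ∈ tups, 1 ≤ t.q ∧ t.a ≤ 96 ∧ t.b ≤ 96 ∧ t.c ≤ 96 ∧ t.d ≤ 96 := by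
  decide +kernel

/-- Combined certificate. -/
theorem cert {m e m' e' k : ℕ} (he : 1 ≤ e) (he96 : e ≤ 96) (hm : m < e) (hc : m.Coprime e)
    (h1 : 24 ≤ 84 * m / e) (h2 : 84 * m / e < 28)
    (he' : 1 ≤ e') (he96' : e' ≤ 96) (hm' : m' < e') (hc' : m'.Coprime e')
    (h1' : 40 ≤ 84 * m' / e') (h2' : 84 * m' / e' < 41) (hk : 64 ≤ k) (hk' : k ≤ 84) :
    ∃ t ∈ tups, fx m e t = true ∧ fy m' e' t = true ∧ fs k t = true := by
  have hX := checkX e (Finset.mem_Icc.2 ⟨he, he96⟩) m (Finset.mem_range.2 hm) hc h1 h2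
  have hY := checkY e' (Finset.mem_Icc.2 ⟨he', he96'⟩) m' (Finset.mem_range.2 hm') hc' h1' h2'
  have hS := checkS k (Finset.mem_Icc.2 ⟨hk, hk'⟩)
  rw [List.contains_iff_mem] at hX hY hS
  have hall := checkAll
  rw [List.all_eq_true] at hall
  have h3 := hall _ hX
  rw [List.all_eq_true] at h3
  have h4 := h3 _ hY
  rw [List.all_eq_true] at h4
  have h5 := h4 _ hS
  apply mask_and
  intro h0
  rw [h0] at h5
  exact absurd h5 (by decide)

/-- Snapping a real number to the largest fraction with denominator at most `96` below it. -/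
theorem snap (a : ℝ) (ha0 : 0 ≤ a) (ha1 : a < 1) : ∃ m e : ℕ, 1 ≤ e ∧ e ≤ 96 ∧ m < e ∧
    m.Coprime e ∧ ∀ k : ℕ, 1 ≤ k → k ≤ 96 → ⌊(k : ℝ) * a⌋₊ = k * m / e := by
  have hne : (Finset.Icc 1 96).Nonempty := ⟨1, by simp⟩
  obtain ⟨e, he, hmax⟩ := Finset.exists_max_image (Finset.Icc 1 96)
    (fun k : ℕ => ((⌊(k : ℝ) * a⌋₊ : ℝ)) / (k : ℝ)) hne
  rw [Finset.mem_Icc] at he
  have he0 : (0 : ℝ) < e := by exact_mod_cast he.1
  let m := ⌊(e : ℝ) * a⌋₊
  have hme : (m : ℝ) ≤ e * a := Nat.floor_le (by positivity)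
  have hmlt : m < e := by
    have : (m : ℝ) < e := by nlinarith
    exact_mod_cast this
  have hfl : ∀ k : ℕ, 1 ≤ k → k ≤ 96 → ⌊(k : ℝ) * a⌋₊ = k * m / e := by
    intro k hk1 hk2
    have hk0 : (0 : ℝ) < k := by exact_mod_cast hk1
    apply le_antisymm
    · rw [Nat.le_div_iff_mul_le (by omega)]
      have h := hmax k (Finset.mem_Icc.2 ⟨hk1, hk2⟩)
      rw [div_le_div_iff₀ hk0 he0] at h
      have h' : ((⌊(k : ℝ) * a⌋₊ * e : ℕ) : ℝ) ≤ ((m * k : ℕ) : ℝ) := by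
        push_cast
        exact h
      have h'' : ⌊(k : ℝ) * a⌋₊ * e ≤ m * k := by exact_mod_cast h'
      rw [mul_comm k m]
      exact h''
    · apply Nat.le_floor
      have h1 : ((k * m / e : ℕ) : ℝ) ≤ ((k * m : ℕ) : ℝ) / (e : ℝ) := Nat.cast_div_le
      have h2 : ((k * m : ℕ) : ℝ) / (e : ℝ) ≤ k * a := by
        rw [div_le_iff₀ he0]
        push_cast
        nlinarith
      exact h1.trans h2
  clear_value m
  have hg : 0 < m.gcd e := Nat.gcd_pos_of_pos_right _ (by omega)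
  have hcop := Nat.coprime_div_gcd_div_gcd hg
  obtain ⟨m1, hm1⟩ := Nat.gcd_dvd_left m e
  obtain ⟨e1, he1⟩ := Nat.gcd_dvd_right m e
  generalize m.gcd e = g at hg hcop hm1 he1
  subst hm1
  subst he1
  rw [Nat.mul_div_cancel_left _ hg, Nat.mul_div_cancel_left _ hg] at hcop
  refine ⟨m1, e1, ?_, ?_, ?_, hcop, ?_⟩
  · by_contra h
    have h0 : e1 = 0 := by omega
    subst h0
    omega
  · exact (Nat.le_mul_of_pos_left e1 hg).trans he.2
  · exact lt_of_mul_lt_mul_left hmlt (Nat.zero_le g)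
  · intro k hk1 hk2
    rw [hfl k hk1 hk2]
    rw [show k * (g * m1) = g * (k * m1) by ring]
    exact Nat.mul_div_mul_left _ _ hg

/-- Membership in a cell in terms of floors. -/
theorem mem_cell_iff {k : ℕ} (hk : 1 ≤ k) {i j : ℕ} {z : ℝ × ℝ} (h1 : 0 ≤ z.1) (h2 : 0 ≤ z.2) :
    z ∈ cell k (i + 1) (j + 1) ↔ ⌊(k : ℝ) * z.1⌋₊ = i ∧ ⌊(k : ℝ) * z.2⌋₊ = j := by
  have hk0 : (0 : ℝ) < k := by exact_mod_cast hk
  unfold cell
  rw [Set.mem_prod, Set.mem_Ico, Set.mem_Ico, Nat.floor_eq_iff (by positivity),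
    Nat.floor_eq_iff (by positivity)]
  push_cast
  rw [add_sub_cancel_right, add_sub_cancel_right, div_le_iff₀ hk0, lt_div_iff₀ hk0,
    div_le_iff₀ hk0, lt_div_iff₀ hk0, mul_comm z.1, mul_comm z.2]

theorem ext96 {x : ℕ → ℝ × ℝ} (hx : IsGood 96 x) :
    (∀ k : ℕ, 1 ≤ k → k ≤ 96 → ∀ u v : ℕ, u < k → v < k →
      ∃ n : ℕ, 1 ≤ n ∧ n ≤ k ^ 2 ∧ ⌊(k : ℝ) * (x n).1⌋₊ = u ∧ ⌊(k : ℝ) * (x n).2⌋₊ = v) ∧
    (∀ k : ℕ, 1 ≤ k → k ≤ 96 → ∀ n m : ℕ, 1 ≤ n → n ≤ k ^ 2 → 1 ≤ m → m ≤ k ^ 2 →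
      ⌊(k : ℝ) * (x n).1⌋₊ = ⌊(k : ℝ) * (x m).1⌋₊ →
      ⌊(k : ℝ) * (x n).2⌋₊ = ⌊(k : ℝ) * (x m).2⌋₊ → n = m) := by
  have hpos : ∀ k : ℕ, k ≤ 96 → ∀ n, 1 ≤ n → n ≤ k ^ 2 →
      (0 ≤ (x n).1 ∧ (x n).1 < 1) ∧ (0 ≤ (x n).2 ∧ (x n).2 < 1) := by
    intro k hk n hn1 hn2
    have := hx.1 n hn1 (hn2.trans (Nat.pow_le_pow_left hk 2))
    rw [Set.mem_prod, Set.mem_Ico, Set.mem_Ico] at this
    exact this
  constructor
  · intro k hk1 hk2 u v hu hv
    obtain ⟨n, ⟨hn1, hn2, hn3⟩, _⟩ := hx.2 k hk1 hk2 (u + 1) (v + 1) (by omega) (by omega)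
      (by omega) (by omega)
    have hp := hpos k hk2 n hn1 hn2
    rw [mem_cell_iff hk1 hp.1.1 hp.2.1] at hn3
    exact ⟨n, hn1, hn2, hn3⟩
  · intro k hk1 hk2 n m hn1 hn2 hm1 hm2 h1 h2
    have hpn := hpos k hk2 n hn1 hn2
    have hpm := hpos k hk2 m hm1 hm2
    have hk0 : (0 : ℝ) < k := by exact_mod_cast hk1
    have hlt : ∀ a : ℝ, a < 1 → ⌊(k : ℝ) * a⌋₊ < k := by
      intro a ha
      rw [Nat.floor_lt' (by omega)]
      nlinarith
    obtain ⟨l, _, huniq⟩ := hx.2 k hk1 hk2 (⌊(k : ℝ) * (x n).1⌋₊ + 1) (⌊(k : ℝ) * (x n).2⌋₊ + 1)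
      (by omega) (hlt _ hpn.1.2) (by omega) (hlt _ hpn.2.2)
    have e1 := huniq n ⟨hn1, hn2, (mem_cell_iff hk1 hpn.1.1 hpn.2.1).2 ⟨rfl, rfl⟩⟩
    have e2 := huniq m ⟨hm1, hm2, (mem_cell_iff hk1 hpm.1.1 hpm.2.1).2 ⟨h1.symm, h2.symm⟩⟩
    rw [e1, e2]

/-- If `b` lies in the `q`-cell of `a`, to the right of `a`, then it is in its `p`-cell. -/
theorem right_of {a b : ℝ} {q p : ℕ} (hq : 1 ≤ q) (hp : 1 ≤ p) (_ : 0 ≤ a) (hab : a ≤ b)
    (hqc : ⌊(q : ℝ) * b⌋₊ = ⌊(q : ℝ) * a⌋₊)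
    (hc : (⌊(q : ℝ) * a⌋₊ + 1) * p ≤ (⌊(p : ℝ) * a⌋₊ + 1) * q) :
    ⌊(p : ℝ) * b⌋₊ = ⌊(p : ℝ) * a⌋₊ := by
  have hq0 : (0 : ℝ) < q := by exact_mod_cast hq
  have hp0 : (0 : ℝ) < p := by exact_mod_cast hp
  apply le_antisymm
  · have h1 : (q : ℝ) * b < (⌊(q : ℝ) * a⌋₊ : ℝ) + 1 := by
      rw [← hqc]; exact Nat.lt_floor_add_one _
    have h2 : ((⌊(q : ℝ) * a⌋₊ : ℝ) + 1) * p ≤ ((⌊(p : ℝ) * a⌋₊ : ℝ) + 1) * q := by
      exact_mod_cast hc
    have h3 : (p : ℝ) * b < (⌊(p : ℝ) * a⌋₊ : ℝ) + 1 := by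
      have h4 : (p : ℝ) * b * q < ((⌊(p : ℝ) * a⌋₊ : ℝ) + 1) * q := by
        calc (p : ℝ) * b * q = ((q : ℝ) * b) * p := by ring
          _ < ((⌊(q : ℝ) * a⌋₊ : ℝ) + 1) * p := by
              exact mul_lt_mul_of_pos_right h1 hp0
          _ ≤ _ := h2
      exact lt_of_mul_lt_mul_right h4 hq0.le
    have h5 : ⌊(p : ℝ) * b⌋₊ < ⌊(p : ℝ) * a⌋₊ + 1 := by
      rw [Nat.floor_lt' (by omega)]
      exact_mod_cast h3
    omega
  · exact Nat.floor_le_floor (mul_le_mul_of_nonneg_left hab hp0.le)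

/-- If `b` lies in the `q`-cell of `a`, to the left of `a`, then it is in its `p`-cell. -/
theorem left_of {a b : ℝ} {q p : ℕ} (hq : 1 ≤ q) (hp : 1 ≤ p) (hb : 0 ≤ b) (hab : b ≤ a)
    (hqc : ⌊(q : ℝ) * b⌋₊ = ⌊(q : ℝ) * a⌋₊)
    (hc : ⌊(p : ℝ) * a⌋₊ * q ≤ ⌊(q : ℝ) * a⌋₊ * p) :
    ⌊(p : ℝ) * b⌋₊ = ⌊(p : ℝ) * a⌋₊ := by
  have hq0 : (0 : ℝ) < q := by exact_mod_cast hq
  have hp0 : (0 : ℝ) < p := by exact_mod_cast hp
  apply le_antisymm
  · exact Nat.floor_le_floor (mul_le_mul_of_nonneg_left hab hp0.le)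
  · apply Nat.le_floor
    have h1 : (⌊(q : ℝ) * a⌋₊ : ℝ) ≤ (q : ℝ) * b := by
      rw [← hqc]; exact Nat.floor_le (by positivity)
    have h2 : (⌊(p : ℝ) * a⌋₊ : ℝ) * q ≤ (⌊(q : ℝ) * a⌋₊ : ℝ) * p := by
      exact_mod_cast hc
    have h4 : (⌊(p : ℝ) * a⌋₊ : ℝ) * q ≤ (p : ℝ) * b * q := by
      calc (⌊(p : ℝ) * a⌋₊ : ℝ) * q ≤ (⌊(q : ℝ) * a⌋₊ : ℝ) * p := h2
        _ ≤ ((q : ℝ) * b) * p := mul_le_mul_of_nonneg_right h1 hp0.le
        _ = (p : ℝ) * b * q := by ring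
    exact le_of_mul_le_mul_right h4 hq0

theorem no96 (x : ℕ → ℝ × ℝ) (hx : IsGood 96 x) : False := by
  obtain ⟨hE, hU⟩ := ext96 hx
  have hin : ∀ n, 1 ≤ n → n ≤ 96 ^ 2 →
      (0 ≤ (x n).1 ∧ (x n).1 < 1) ∧ (0 ≤ (x n).2 ∧ (x n).2 < 1) := by
    intro n hn1 hn2
    have := hx.1 n hn1 hn2
    rw [Set.mem_prod, Set.mem_Ico, Set.mem_Ico] at this
    exact this
  -- a point of index `> 63 ^ 2` in the window
  have hwin : ∃ n, 63 ^ 2 < n ∧ n ≤ 84 ^ 2 ∧ 24 ≤ ⌊((84 : ℕ) : ℝ) * (x n).1⌋₊ ∧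
      ⌊((84 : ℕ) : ℝ) * (x n).1⌋₊ < 28 ∧ ⌊((84 : ℕ) : ℝ) * (x n).2⌋₊ = 40 := by
    by_contra hcon
    push Not at hcon
    obtain ⟨n1, a1, b1, c1, d1⟩ := hE 84 (by norm_num) (by norm_num) 24 40 (by norm_num) (by norm_num)
    obtain ⟨n2, a2, b2, c2, d2⟩ := hE 84 (by norm_num) (by norm_num) 25 40 (by norm_num) (by norm_num)
    obtain ⟨n3, a3, b3, c3, d3⟩ := hE 84 (by norm_num) (by norm_num) 26 40 (by norm_num) (by norm_num)
    obtain ⟨n4, a4, b4, c4, d4⟩ := hE 84 (by norm_num) (by norm_num) 27 40 (by norm_num) (by norm_num)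
    have hsmall : ∀ n c, n ≤ 84 ^ 2 → ⌊((84 : ℕ) : ℝ) * (x n).1⌋₊ = c → 24 ≤ c → c < 28 →
        ⌊((84 : ℕ) : ℝ) * (x n).2⌋₊ = 40 → n ≤ 63 ^ 2 := by
      intro n c h1 h2 h3 h4 h5
      by_contra h6
      exact hcon n (by omega) h1 (by omega) (by omega) h5
    have e1 := hsmall n1 24 b1 c1 (by norm_num) (by norm_num) d1
    have e2 := hsmall n2 25 b2 c2 (by norm_num) (by norm_num) d2
    have e3 := hsmall n3 26 b3 c3 (by norm_num) (by norm_num) d3
    have e4 := hsmall n4 27 b4 c4 (by norm_num) (by norm_num) d4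
    have h63x : ∀ n, 1 ≤ n → n ≤ 84 ^ 2 → 24 ≤ ⌊((84 : ℕ) : ℝ) * (x n).1⌋₊ →
        ⌊((84 : ℕ) : ℝ) * (x n).1⌋₊ < 28 →
        18 ≤ ⌊((63 : ℕ) : ℝ) * (x n).1⌋₊ ∧ ⌊((63 : ℕ) : ℝ) * (x n).1⌋₊ < 21 := by
      intro n h0 h1 h2 h3
      have hp := (hin n h0 (h1.trans (by norm_num))).1
      have h4 : (24 : ℝ) ≤ ((84 : ℕ) : ℝ) * (x n).1 := by
        have := (Nat.le_floor_iff (by have := hp.1; positivity)).1 h2
        exact_mod_cast this
      have h5 : ((84 : ℕ) : ℝ) * (x n).1 < 28 := by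
        have := (Nat.floor_lt' (by norm_num)).1 h3
        exact_mod_cast this
      push_cast at h4 h5
      constructor
      · apply Nat.le_floor
        push_cast
        linarith
      · rw [Nat.floor_lt' (by norm_num)]
        push_cast
        linarith
    have h63y : ∀ n, 1 ≤ n → n ≤ 84 ^ 2 → ⌊((84 : ℕ) : ℝ) * (x n).2⌋₊ = 40 →
        ⌊((63 : ℕ) : ℝ) * (x n).2⌋₊ = 30 := by
      intro n h0 h1 h2
      have hp := (hin n h0 (h1.trans (by norm_num))).2
      rw [Nat.floor_eq_iff (by have := hp.1; positivity)] at h2 ⊢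
      push_cast at h2 ⊢
      constructor <;> linarith [h2.1, h2.2]
    have f1 := h63x n1 a1 b1 (by omega) (by omega)
    have f2 := h63x n2 a2 b2 (by omega) (by omega)
    have f3 := h63x n3 a3 b3 (by omega) (by omega)
    have f4 := h63x n4 a4 b4 (by omega) (by omega)
    have g1 := h63y n1 a1 b1 d1
    have g2 := h63y n2 a2 b2 d2
    have g3 := h63y n3 a3 b3 d3
    have g4 := h63y n4 a4 b4 d4
    have hne : ∀ n m c d, 1 ≤ n → n ≤ 63 ^ 2 → 1 ≤ m → m ≤ 63 ^ 2 →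
        ⌊((84 : ℕ) : ℝ) * (x n).1⌋₊ = c → ⌊((84 : ℕ) : ℝ) * (x m).1⌋₊ = d → c ≠ d →
        ⌊((63 : ℕ) : ℝ) * (x n).2⌋₊ = 30 → ⌊((63 : ℕ) : ℝ) * (x m).2⌋₊ = 30 →
        ⌊((63 : ℕ) : ℝ) * (x n).1⌋₊ ≠ ⌊((63 : ℕ) : ℝ) * (x m).1⌋₊ := by
      intro n m c d h1 h2 h3 h4 h5 h6 h7 h8 h9 h10
      have := hU 63 (by norm_num) (by norm_num) n m h1 h2 h3 h4 h10 (by rw [h8, h9])
      subst this
      exact h7 (h5.symm.trans h6)
    have i12 := hne n1 n2 _ _ a1 e1 a2 e2 c1 c2 (by norm_num) g1 g2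
    have i13 := hne n1 n3 _ _ a1 e1 a3 e3 c1 c3 (by norm_num) g1 g3
    have i14 := hne n1 n4 _ _ a1 e1 a4 e4 c1 c4 (by norm_num) g1 g4
    have i23 := hne n2 n3 _ _ a2 e2 a3 e3 c2 c3 (by norm_num) g2 g3
    have i24 := hne n2 n4 _ _ a2 e2 a4 e4 c2 c4 (by norm_num) g2 g4
    have i34 := hne n3 n4 _ _ a3 e3 a4 e4 c3 c4 (by norm_num) g3 g4
    omega
  obtain ⟨n, hn1, hn2, hw1, hw2, hw3⟩ := hwin
  -- the stage at which `x n` appears
  obtain ⟨k, hk1, hk2, hk3, hk4⟩ : ∃ k, 64 ≤ k ∧ k ≤ 84 ∧ n ≤ k ^ 2 ∧ (k - 1) ^ 2 < n := by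
    have hex : ∃ k, n ≤ k ^ 2 := ⟨84, hn2⟩
    refine ⟨Nat.find hex, ?_, Nat.find_min' hex hn2, Nat.find_spec hex, ?_⟩
    · by_contra hlt
      have h1 : Nat.find hex ≤ 63 := by omega
      have h2 := Nat.find_spec hex
      have h3 := Nat.pow_le_pow_left h1 2
      omega
    · by_contra hcon
      push Not at hcon
      have h1 := Nat.find_min' hex hcon
      have h2 : 0 < Nat.find hex := by
        by_contra h0
        have h3 : Nat.find hex = 0 := by omega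
        have h4 := Nat.find_spec hex
        rw [h3] at h4
        omega
      omega
  have hnpos : 1 ≤ n := by omega
  have hn96 : n ≤ 96 ^ 2 := hn2.trans (by norm_num)
  obtain ⟨⟨hx0, hx1⟩, ⟨hy0, hy1⟩⟩ := hin n hnpos hn96
  obtain ⟨m, e, he1, he2, hm, hcop, hfl⟩ := snap (x n).1 hx0 hx1
  obtain ⟨m', e', he1', he2', hm', hcop', hfl'⟩ := snap (x n).2 hy0 hy1
  rw [hfl 84 (by norm_num) (by norm_num)] at hw1 hw2
  rw [hfl' 84 (by norm_num) (by norm_num)] at hw3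
  obtain ⟨t, ht, h1, h2, h3⟩ := cert he1 he2 hm hcop hw1 hw2 he1' he2' hm' hcop'
    (by omega) (by omega) hk1 hk2
  obtain ⟨hq1, ha96, hb96, hc96, hd96⟩ := checkR t ht
  simp only [fs, Bool.and_eq_true, decide_eq_true_eq] at h3
  obtain ⟨⟨⟨⟨hqk, hka⟩, hkb⟩, hkc⟩, hkd⟩ := h3
  simp only [fx, cR, cL, Bool.and_eq_true, decide_eq_true_eq] at h1
  obtain ⟨⟨⟨hxa, hxb⟩, hxc⟩, hxd⟩ := h1
  simp only [fy, cR, cL, Bool.and_eq_true, decide_eq_true_eq] at h2
  obtain ⟨⟨⟨hya, hyb⟩, hyc⟩, hyd⟩ := h2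
  have hq96 : t.q ≤ 96 := by omega
  rw [← hfl t.q hq1 hq96, ← hfl t.a (by omega) ha96] at hxa
  rw [← hfl t.q hq1 hq96, ← hfl t.b (by omega) hb96] at hxb
  rw [← hfl t.q hq1 hq96, ← hfl t.c (by omega) hc96] at hxc
  rw [← hfl t.q hq1 hq96, ← hfl t.d (by omega) hd96] at hxd
  rw [← hfl' t.q hq1 hq96, ← hfl' t.a (by omega) ha96] at hya
  rw [← hfl' t.q hq1 hq96, ← hfl' t.b (by omega) hb96] at hyb
  rw [← hfl' t.q hq1 hq96, ← hfl' t.c (by omega) hc96] at hyc
  rw [← hfl' t.q hq1 hq96, ← hfl' t.d (by omega) hd96] at hyd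
  have hlt : ∀ a : ℝ, a < 1 → ⌊(t.q : ℝ) * a⌋₊ < t.q := by
    intro a ha
    have hk0 : (0 : ℝ) < t.q := by exact_mod_cast hq1
    rw [Nat.floor_lt' (by omega)]
    nlinarith
  obtain ⟨l, hl1, hl2, hlx, hly⟩ := hE t.q hq1 hq96 _ _ (hlt _ hx1) (hlt _ hy1)
  have hlk : l ≤ (k - 1) ^ 2 := hl2.trans (Nat.pow_le_pow_left (by omega) 2)
  have hln : l < n := lt_of_le_of_lt hlk hk4
  obtain ⟨⟨hlx0, hlx1⟩, ⟨hly0, hly1⟩⟩ := hin l hl1 (by omega)
  have fin : ∀ p, k ≤ p → p ≤ 96 → ⌊(p : ℝ) * (x l).1⌋₊ = ⌊(p : ℝ) * (x n).1⌋₊ →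
      ⌊(p : ℝ) * (x l).2⌋₊ = ⌊(p : ℝ) * (x n).2⌋₊ → False := by
    intro p hp1 hp2 h1 h2
    have hkp : k ^ 2 ≤ p ^ 2 := Nat.pow_le_pow_left hp1 2
    have := hU p (by omega) hp2 l n hl1 (by omega) hnpos (by omega) h1 h2
    omega
  rcases le_total (x n).1 (x l).1 with hX | hX <;> rcases le_total (x n).2 (x l).2 with hY | hY
  · exact fin t.a hka ha96 (right_of hq1 (by omega) hx0 hX hlx hxa)
      (right_of hq1 (by omega) hy0 hY hly hya)
  · exact fin t.b hkb hb96 (right_of hq1 (by omega) hx0 hX hlx hxb)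
      (left_of hq1 (by omega) hly0 hY hly hyb)
  · exact fin t.c hkc hc96 (left_of hq1 (by omega) hlx0 hX hlx hxc)
      (right_of hq1 (by omega) hy0 hY hly hyc)
  · exact fin t.d hkd hd96 (left_of hq1 (by omega) hlx0 hX hlx hxd)
      (left_of hq1 (by omega) hly0 hY hly hyd)

theorem IsGood.mono {K K' : ℕ} {x : ℕ → ℝ × ℝ} (h : IsGood K x) (hK : K' ≤ K) : IsGood K' x :=
  ⟨fun n h1 h2 => h.1 n h1 (h2.trans (Nat.pow_le_pow_left hK 2)),
    fun k h1 h2 => h.2 k h1 (h2.trans hK)⟩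

/-- `K* ≤ 95`, and there is no good infinite sequence. -/
theorem result : Kstar ≤ 95 ∧ ¬ ∃ x : ℕ → ℝ × ℝ, ∀ K, 1 ≤ K → IsGood K x := by
  constructor
  · unfold Kstar
    apply iSup₂_le
    rintro K ⟨_, x, hx⟩
    by_contra hcon
    push Not at hcon
    have h96 : 96 ≤ K := by
      have h1 : (95 : ℕ∞) < (K : ℕ∞) := hcon
      have h2 : (95 : ℕ) < K := by exact_mod_cast h1
      omega
    exact no96 x (hx.mono h96)
  · rintro ⟨x, hx⟩
    exact no96 x (hx 96 (by norm_num))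

end Pool.Agent.Results.MP_924435_co.UpperBound
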